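import Pool.Agent.OVL.Fin
import Pool.Agent.EVS.Dom

/-!
# Nodal domains of each sign of a spherical harmonic

`MP_f77893_an`. Let `u` be a nonzero real harmonic homogeneous polynomial of degree `l ≥ 1` in three variables. Then the number of
connected components of `{u > 0}` and the number of connected components of `{u ≤ 0}` on the unit sphere have a sum of at most
`l (l + 1) / 2 + 1`. So the number of positive nodal domains and the number of negative nodal domains whose closure contains no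
singular zero of `u` have a sum of at most `l (l + 1) / 2 + 1`; there are at most `l (l + 1) / 2 + 1` nodal domains if there is no
singular zero; and there are always at most `l (l + 1) / 2` nodal domains of each sign.

Method: the level sets `{u = ε}`, `ε > 0` small, are smooth curves. On every such curve which does not separate the
poles (of an axis in general position) the second derivative of `u` in the longitude has at least four zeros, and such zeros
are counted by Bezout's theorem on the complex quadric; so there are at most `l (l + 1) / 2` curves.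
-/

set_option autoImplicit false

namespace Pool.Agent.Results.MP_f77893_an.EverySign

open MvPolynomial

private lemma card_congr' (p q : (Fin 3 → ℝ) → Prop) (h : p = q) :
    Nat.card (ConnectedComponents {x : Fin 3 → ℝ // p x}) =
      Nat.card (ConnectedComponents {x : Fin 3 → ℝ // q x}) := by
  subst h
  rfl

private lemma finite_congr' (p q : (Fin 3 → ℝ) → Prop) (h : p = q)
    (hf : Finite (ConnectedComponents {x : Fin 3 → ℝ // p x})) :
    Finite (ConnectedComponents {x : Fin 3 → ℝ // q x}) := by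
  subst h
  exact hf

theorem result (l : ℕ) (hl : 1 ≤ l) (u : MvPolynomial (Fin 3) ℝ) (hu : u.IsHomogeneous l)
    (harm : ∑ i : Fin 3, pderiv i (pderiv i u) = 0) (h0 : u ≠ 0) :
    (Finite (ConnectedComponents {x : Fin 3 → ℝ // ∑ i : Fin 3, x i ^ 2 = 1 ∧ 0 < eval x u}) ∧
      Finite (ConnectedComponents {x : Fin 3 → ℝ // ∑ i : Fin 3, x i ^ 2 = 1 ∧ eval x u ≤ 0}) ∧
      Nat.card (ConnectedComponents {x : Fin 3 → ℝ // ∑ i : Fin 3, x i ^ 2 = 1 ∧ 0 < eval x u}) +
        Nat.card (ConnectedComponents {x : Fin 3 → ℝ // ∑ i : Fin 3, x i ^ 2 = 1 ∧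
          eval x u ≤ 0}) ≤ l * (l + 1) / 2 + 1) ∧
    (Finite (ConnectedComponents {x : Fin 3 → ℝ // ∑ i : Fin 3, x i ^ 2 = 1 ∧ eval x u ≠ 0}) ∧
      {D : ConnectedComponents {x : Fin 3 → ℝ // ∑ i : Fin 3, x i ^ 2 = 1 ∧ eval x u ≠ 0} |
          (∃ (x : Fin 3 → ℝ) (h : ∑ i : Fin 3, x i ^ 2 = 1 ∧ eval x u ≠ 0),
            ConnectedComponents.mk ⟨x, h⟩ = D ∧ 0 < eval x u) ∨
          ∀ x ∈ closure {y : Fin 3 → ℝ | ∃ h : ∑ i : Fin 3, y i ^ 2 = 1 ∧ eval y u ≠ 0,
            ConnectedComponents.mk ⟨y, h⟩ = D},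
            eval x u = 0 → ∃ i : Fin 3, eval x (pderiv i u) ≠ 0}.ncard ≤ l * (l + 1) / 2 + 1) ∧
    (Nat.card (ConnectedComponents {x : Fin 3 → ℝ // ∑ i : Fin 3, x i ^ 2 = 1 ∧ 0 < eval x u}) ≤
        l * (l + 1) / 2 ∧
      Finite (ConnectedComponents {x : Fin 3 → ℝ // ∑ i : Fin 3, x i ^ 2 = 1 ∧ eval x u < 0}) ∧
      Nat.card (ConnectedComponents {x : Fin 3 → ℝ // ∑ i : Fin 3, x i ^ 2 = 1 ∧ eval x u < 0}) ≤
        l * (l + 1) / 2) := by
  obtain ⟨a1, a2, a3, a4⟩ := Pool.Agent.EVS.final l hl u hu harm h0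
  have hn : (-u).IsHomogeneous l := hu.neg
  have harm' : ∑ i : Fin 3, pderiv i (pderiv i (-u)) = 0 := by
    simp only [map_neg, Finset.sum_neg_distrib, harm, neg_zero]
  obtain ⟨b1, _, _, b4⟩ := Pool.Agent.EVS.final l hl (-u) hn harm' (neg_ne_zero.2 h0)
  have hp : (fun x : Fin 3 → ℝ => ∑ i : Fin 3, x i ^ 2 = 1 ∧ 0 < eval x (-u)) =
      fun x : Fin 3 → ℝ => ∑ i : Fin 3, x i ^ 2 = 1 ∧ eval x u < 0 := by
    funext x
    rw [map_neg, neg_pos]
  refine ⟨⟨a1, a2, a3⟩, ⟨(Pool.Agent.OVL.final l hl u hu harm h0).1,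
    (Pool.Agent.EVS.dom l hl u hu harm h0).trans a3⟩, a4, finite_congr' _ _ hp b1, ?_⟩
  rw [← card_congr' _ _ hp]
  exact b4

end Pool.Agent.Results.MP_f77893_an.EverySign
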