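import Pool.Agent.Helper54.SH.Main

/-!
# Leydold's bound for spherical harmonics with a rotational symmetry of large order

`MP_f77893_an`. Leydold's number `⌊(ℓ+1)²/2⌋` bounds the number of nodal domains of every
spherical harmonic `u` of degree `ℓ ≥ 1` which

* is invariant under the rotation by `2π/k` about an axis (here the `z`-axis), `k > ℓ/2`; or
* is, on the sphere, of the form `F(z) + H(z) Re (c (x+iy)^k)` for some `k ≥ 1` (the sum of a zonal harmonic and
  a harmonic which separates variables, about the same axis).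
-/

set_option autoImplicit false

namespace Pool.Agent.Results.MP_f77893_an.LargeRotation

open Pool.Agent.Helper54.SH in
theorem result (ℓ k : ℕ) (hℓ : 1 ≤ ℓ) (hk : 1 ≤ k) (u : MvPolynomial (Fin 3) ℝ)
    (hu : u.IsHomogeneous ℓ)
    (harm : ∑ i : Fin 3, MvPolynomial.pderiv i (MvPolynomial.pderiv i u) = 0)
    (h : (ℓ < 2 * k ∧ ∀ x : Fin 3 → ℝ, MvPolynomial.eval
        ![Real.cos (2 * Real.pi / k) * x 0 - Real.sin (2 * Real.pi / k) * x 1,
          Real.sin (2 * Real.pi / k) * x 0 + Real.cos (2 * Real.pi / k) * x 1, x 2] u =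
        MvPolynomial.eval x u) ∨
      (∃ (F H : ℝ → ℝ) (c : ℂ), ∀ x : Fin 3 → ℝ, ∑ i : Fin 3, x i ^ 2 = 1 →
        MvPolynomial.eval x u =
          F (x 2) + H (x 2) * (c * ((x 0 : ℂ) + (x 1 : ℂ) * Complex.I) ^ k).re)) :
    Finite (ConnectedComponents
      {x : Fin 3 → ℝ // ∑ i : Fin 3, x i ^ 2 = 1 ∧ MvPolynomial.eval x u ≠ 0}) ∧
    Nat.card (ConnectedComponents
      {x : Fin 3 → ℝ // ∑ i : Fin 3, x i ^ 2 = 1 ∧ MvPolynomial.eval x u ≠ 0}) ≤
      (ℓ + 1) ^ 2 / 2 := by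
  rcases h with ⟨h2, hrot⟩ | ⟨F, H, c, hF⟩
  · obtain ⟨a, b, α, hb, hform⟩ := struct_rot ℓ k hk h2 u hu harm hrot
    exact main_count ℓ k hℓ hk u a b α hb hform
  · obtain ⟨a, b, α, hb, hform⟩ := struct_sum ℓ k hk u hu harm F H c hF
    exact main_count ℓ k hℓ hk u a b α hb hform

end Pool.Agent.Results.MP_f77893_an.LargeRotation
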