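import Pool.Agent.SHB.Cor

/-!
# A refined Courant inequality for the nodal domains of spherical harmonics

`MP_f77893_an`. Let `u` be a nonzero real harmonic homogeneous polynomial of degree `l ≥ 1` in three
variables, `F` the number of its nodal domains on the unit sphere, and
`f(t) = u (1 - t^2, i (1 + t^2), 2 t)` (a nonzero polynomial of degree at most `2 l`, whose `2 l` roots,
infinity included, are the Maxwell directions of `u`). Then

`2 F + ∑ (roots t of f, infinity included) m_t (m_t - 1) + ∑ (zeros x) (b_x - 1) (b_x - 2) ≤ 2 l^2 + 2`,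

where `m_t` is the multiplicity of the root `t` and `b_x` the order of vanishing of `u` at `x`.

Consequences: a bound for harmonics with azimuthal frequencies in `[b, a]`, for harmonics with few
Maxwell directions, and Leydold's bound `l^2/2 + O(l)` for three classes of harmonics.
-/

set_option autoImplicit false

namespace Pool.Agent.Results.MP_f77893_an.RefinedCourant

open Pool.Agent.SHB in
theorem result (l : ℕ) (hl : 1 ≤ l) (u : MvPolynomial (Fin 3) ℝ) (hu : u.IsHomogeneous l)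
    (harm : ∑ i : Fin 3, MvPolynomial.pderiv i (MvPolynomial.pderiv i u) = 0) (h0 : u ≠ 0)
    (f : Polynomial ℂ)
    (hf : f = MvPolynomial.aeval ![1 - Polynomial.X ^ 2,
      Polynomial.C Complex.I * (1 + Polynomial.X ^ 2), 2 * Polynomial.X] u)
    (v : MvPolynomial (Fin 3) ℂ)
    (hv : v = MvPolynomial.aeval ![MvPolynomial.C (1 / 2) * (MvPolynomial.X 0 + MvPolynomial.X 1),
      MvPolynomial.C (-Complex.I / 2) * (MvPolynomial.X 0 - MvPolynomial.X 1),
      MvPolynomial.X 2] (MvPolynomial.map (algebraMap ℝ ℂ) u))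
    (F : ℕ)
    (hF : F = Nat.card (ConnectedComponents
      {x : Fin 3 → ℝ // ∑ i : Fin 3, x i ^ 2 = 1 ∧ MvPolynomial.eval x u ≠ 0})) :
    f ≠ 0 ∧
    Finite (ConnectedComponents
      {x : Fin 3 → ℝ // ∑ i : Fin 3, x i ^ 2 = 1 ∧ MvPolynomial.eval x u ≠ 0}) ∧
    (∀ (S : Finset (Fin 3 → ℝ)) (b : (Fin 3 → ℝ) → ℕ),
      (∀ x ∈ S, ∑ i : Fin 3, x i ^ 2 = 1 ∧
        u ∈ (Ideal.span (Set.range fun i : Fin 3 =>
          (MvPolynomial.X i - MvPolynomial.C (x i) : MvPolynomial (Fin 3) ℝ))) ^ b x) →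
      2 * F + ∑ t ∈ f.roots.toFinset, f.rootMultiplicity t * (f.rootMultiplicity t - 1) +
        (2 * l - f.natDegree) * (2 * l - f.natDegree - 1) +
        ∑ x ∈ S, (b x - 1) * (b x - 2) ≤ 2 * l ^ 2 + 2) ∧
    (∀ a b : ℕ, (∀ d ∈ v.support, (b : ℤ) ≤ |((d 0 : ℕ) : ℤ) - ((d 1 : ℕ) : ℤ)| ∧
        |((d 0 : ℕ) : ℤ) - ((d 1 : ℕ) : ℤ)| ≤ a) →
      F + (l - a) * (l - a - 1) + (b - 1) * (b - 2) ≤ l ^ 2 + 1) ∧
    (∀ k : ℕ, 1 ≤ k → f.roots.toFinset.card + (if f.natDegree = 2 * l then 0 else 1) ≤ 2 * k →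
      k * F + l ^ 2 ≤ k * (l ^ 2 + l + 1)) ∧
    ((∃ a b : ℕ, a ≤ l ∧ l ^ 2 ≤ 2 * ((l - a) ^ 2 + b ^ 2) ∧
        ∀ d ∈ v.support, (b : ℤ) ≤ |((d 0 : ℕ) : ℤ) - ((d 1 : ℕ) : ℤ)| ∧
          |((d 0 : ℕ) : ℤ) - ((d 1 : ℕ) : ℤ)| ≤ a) ∨
      (∃ (x : Fin 3 → ℝ) (b : ℕ), ∑ i : Fin 3, x i ^ 2 = 1 ∧ l ^ 2 ≤ 2 * b ^ 2 ∧
        u ∈ (Ideal.span (Set.range fun i : Fin 3 =>
          (MvPolynomial.X i - MvPolynomial.C (x i) : MvPolynomial (Fin 3) ℝ))) ^ b) ∨
      f.roots.toFinset.card + (if f.natDegree = 2 * l then 0 else 1) ≤ 4 →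
      2 * F ≤ l ^ 2 + 8 * l + 2) := by
  have hf' : f = fIso (cx u) := by
    rw [hf, fIso, cx, MvPolynomial.aeval_map_algebraMap]
  have hv' : v = zc u := hv
  subst hf' hv' hF
  obtain ⟨h1, h2, -⟩ := main_bound u l hl hu harm h0 ∅ (fun _ => 0) (by simp)
  refine ⟨h1, h2, ?_, ?_, ?_, ?_⟩
  · intro S b hS
    exact (main_bound u l hl hu harm h0 S b hS).2.2
  · intro a b hw
    exact window u l hl hu harm h0 a b hw
  · intro k hk hr
    exact axes u l hl hu harm h0 k hk hr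
  · intro hc
    exact leydold_class u l hl hu harm h0 hc

end Pool.Agent.Results.MP_f77893_an.RefinedCourant
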